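import Pool.Agent.Results.MP_553913_nt.DerivativesDensity
import Pool.Agent.Q9.BE.Fin

/-!
# The zeros of `L(E, s)` off the line `Re s = 1`, located by Bessel series over the prime powers

`E : y² = x³ + a x + b` is an elliptic curve over `ℚ` of conductor `N` and `Λ` its completed L-function
(definitions of the starting file `Pool.Agent.Results.MP_553913_nt.DerivativesDensity`); `α_p`, `β_p` are the
eigenvalues of Frobenius.  For real `τ`, `h > 0` and `k ≥ 1` let

`B_k(τ, h) = ∑_{q = p^n} (α_p^n + β_p^n) / (n q^(3/2 + iτ)) · J_k(h log q) / (h log q)`,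

a series over the prime powers on the edge `Re s = 3/2` of the Euler product, which converges absolutely.

We prove that the rate of decay of `B_k(τ, h)` for `k → ∞` is exactly the size of the largest ellipse with the
foci `3/2 + i (τ ± h)` which is free of zeros of `Λ`: there is no zero in the open ellipse with the sum `h R` of
the semi-axes if and only if `B_k(τ, h) = O(r^(-k))` for all `r < R`.  So the Riemann hypothesis for `E` holds if
and only if this is so for all heights `τ` and the `R` with `h (R - 1/R) = 1` (the golden ratio for `h = 1`).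
Without any hypothesis, for every `R` with `h (R - 1/R) = 1 - 2 δ` it is so at all heights in `[0, T]` outside
a set of measure `≤ C T^(1 - c δ) log T`, for every `c < 1`.

Proof.  The boundary function `log L(E, 3/2 + i (τ + h u))`, `|u| ≤ 1`, exists almost everywhere and is integrable; its
coefficients for the Chebyshev polynomials of the second kind are the `B_k(τ, h)` up to a factor `2k`.  They
decay like `r^(-k)`, `r < R`, if and only if the function is analytic in the ellipse.  The measure bound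
follows from the density theorem `MP_553913_nt.ZeroDensity`.
-/

set_option autoImplicit false

open Complex UpperHalfPlane MatrixGroups CongruenceSubgroup

namespace Pool.Agent.Results.MP_553913_nt.BesselSeries

open Pool.Agent.Results.MP_553913_nt.DerivativesDensity (coef IsFormOf IsCompleted)

/-- The coefficient of `p^(-n (s - 1/2))` in `log L(E, s)`: the number `(α_p^n + β_p^n) / (n p^(n/2))`. -/
noncomputable def coeff (α β : ℕ → ℂ) (p n : ℕ) : ℂ :=
  ((α p / ((Real.sqrt p : ℝ) : ℂ)) ^ n + (β p / ((Real.sqrt p : ℝ) : ℂ)) ^ n) / (n : ℂ)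

/-- The Bessel function `J_k(y) = (i^k / π) ∫_0^π e^{-iy cos θ} cos(kθ) dθ` of order `k`. -/
noncomputable def bessel (k : ℕ) (y : ℝ) : ℂ :=
  Complex.I ^ k / Real.pi * ∫ θ in (0 : ℝ)..Real.pi,
    Complex.exp (-(Complex.I * y * Real.cos θ)) * Complex.cos (k * θ)

/-- The term of the Bessel series at the prime power `q = p^(j+1)`: the coefficient of `q`, times
`q^(-1-iτ)`, times `J_k(h log q) / (h log q)`. -/
noncomputable def besselTerm (α β : ℕ → ℂ) (τ h : ℝ) (k : ℕ) (x : Nat.Primes × ℕ) : ℂ :=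
  coeff α β x.1 (x.2 + 1) * (((x.1 : ℕ) : ℂ) ^ (-(1 + τ * Complex.I))) ^ (x.2 + 1) *
    (bessel k (h * Real.log (((x.1 : ℕ) ^ (x.2 + 1) : ℕ) : ℝ)) /
      ((h * Real.log (((x.1 : ℕ) ^ (x.2 + 1) : ℕ) : ℝ) : ℝ) : ℂ))

/-- The Bessel series `B_k(τ, h)`, the sum of the terms over all prime powers. -/
noncomputable def besselSeries (α β : ℕ → ℂ) (τ h : ℝ) (k : ℕ) : ℂ :=
  ∑' x : Nat.Primes × ℕ, besselTerm α β τ h k x

/-- `B_k(τ, h) = O(r^(-k))` for `k → ∞`, for all `r` between `1` and `R`. -/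
def Decays (α β : ℕ → ℂ) (τ h R : ℝ) : Prop :=
  ∀ r : ℝ, 1 < r → r < R → ∃ C : ℝ, ∀ k : ℕ, 1 ≤ k → ‖besselSeries α β τ h k‖ ≤ C / r ^ k

/-- The open ellipse with the foci `3/2 + i (τ ± h)` and the sum `h R` of the semi-axes. -/
def Ellipse (τ h R : ℝ) : Set ℂ :=
  {s : ℂ | ‖s - (3 / 2 + (τ + h) * Complex.I)‖ + ‖s - (3 / 2 + (τ - h) * Complex.I)‖ <
    h * (R + 1 / R)}

/-- **Main theorem.** Let `E : y² = x³ + a x + b` be an elliptic curve over `ℚ` of conductor `N`, `Λ` its
completed L-function, and `α_p`, `β_p` its eigenvalues of Frobenius: `α_p + β_p` is the `p`-th coefficient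
and `α_p β_p = p` (`0` if `p ∣ N`).

1. The Bessel series `B_k(τ, h)` converge absolutely.
2. For all real `τ`, `h > 0`, `R > 1` with `h (R - 1/R) ≤ 3` (the ellipse is in `Re s > 0`): `Λ` has no zero in
   the open ellipse with the foci `3/2 + i (τ ± h)` and the sum `h R` of the semi-axes if and only if
   `B_k(τ, h) = O(r^(-k))` for all `r < R`.
3. For `h (R - 1/R) = 1` (for `h = 1`, `R` is the golden ratio): all zeros of `Λ` are on the line `Re s = 1`
   if and only if `B_k(τ, h) = O(r^(-k))` for all real `τ` and all `r < R`.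
4. For every `c < 1` there is `C` such that for all `0 < h ≤ 1`, `R > 1` with `h (R - 1/R) = 1 - 2 δ`, `δ ≥ 0`,
   and all `T ≥ 2` the heights `τ` in `[0, T]` at which it is not true that `B_k(τ, h) = O(r^(-k))` for all
   `r < R` have the Lebesgue (outer) measure at most `C T^(1 - c δ) log T`. -/
theorem result (a b : ℤ) (N : ℕ) [NeZero N] (f : CuspForm (Gamma0 N : Subgroup (GL (Fin 2) ℝ)) 2) (w : ℝ)
    (_ : 4 * a ^ 3 + 27 * b ^ 2 ≠ 0) (hf : IsFormOf a b N f w) (α β : ℕ → ℂ)
    (hsum : ∀ p : ℕ, p.Prime → α p + β p = coef f p)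
    (hprod : ∀ p : ℕ, p.Prime → α p * β p = if p ∣ N then 0 else (p : ℂ)) :
    ∃ Λ : ℂ → ℂ, IsCompleted f Λ ∧ (∀ Λ', IsCompleted f Λ' → Λ' = Λ) ∧
      (∀ s : ℂ, Λ (2 - s) = (w : ℂ) * Λ s) ∧
      (∀ (τ h : ℝ) (k : ℕ), 0 < h → Summable fun x => ‖besselTerm α β τ h k x‖) ∧
      (∀ τ h R : ℝ, 0 < h → 1 < R → h * (R - 1 / R) ≤ 3 →
        ((∀ s ∈ Ellipse τ h R, Λ s ≠ 0) ↔ Decays α β τ h R)) ∧
      (∀ h R : ℝ, 0 < h → 1 < R → h * (R - 1 / R) = 1 →
        ((∀ s : ℂ, Λ s = 0 → s.re = 1) ↔ ∀ τ : ℝ, Decays α β τ h R)) ∧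
      ∀ c : ℝ, 0 < c → c < 1 → ∃ C : ℝ, 0 < C ∧ ∀ h R δ T : ℝ, 0 < h → h ≤ 1 → 1 < R → 0 ≤ δ →
        h * (R - 1 / R) = 1 - 2 * δ → 2 ≤ T →
        MeasureTheory.volume {τ : ℝ | 0 ≤ τ ∧ τ ≤ T ∧ ¬ Decays α β τ h R} ≤
          ENNReal.ofReal (C * T ^ (1 - c * δ) * Real.log T) := by
  have hf' : Pool.Agent.W169.HF.IsForm N f w :=
    { one := hf.one
      real := hf.real
      mul := hf.mul
      pow := hf.pow
      sign := hf.sign
      fricke := hf.fricke
      good := hf.good
      bad := fun p hp hpN => by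
        have h1 : (1 : ℝ) ≤ Real.sqrt p := by
          rw [Real.one_le_sqrt]
          exact_mod_cast hp.one_le
        have h2 : ‖coef f p‖ ≤ 1 := by
          rcases hf.bad p hp hpN with h | h | h <;> simp [h]
        exact h2.trans h1 }
  obtain ⟨Λ, hΛ, hfe, -, -⟩ := Pool.Agent.W174.HF.nf1 N f w hf'
  refine ⟨Λ, hΛ, fun Λ' h' => Pool.Agent.W169.HF.completed_unique h' hΛ, hfe, ?_, ?_, ?_, ?_⟩
  · intro τ h k hh
    exact Pool.Agent.Q9.EL.summable_bt (Pool.Agent.Q9.BE.norm_b hf' hsum hprod) τ hh k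
  · intro τ h R hh hR hhR
    exact Pool.Agent.Q9.BE.ell_iff hf' hΛ hsum hprod τ hh hR hhR
  · intro h R hh hR hhR
    exact Pool.Agent.Q9.BE.rh_iff hf' hΛ hsum hprod hfe hh hR hhR
  · intro c hc0 hc1
    obtain ⟨C, hC, H⟩ := Pool.Agent.Q9.BE.bad_meas hf' hΛ hsum hprod hc0 hc1
    refine ⟨C, hC, fun h R δ T hh hh1 hR hδ hhR hT => ?_⟩
    have h3 := H h R T hh hh1 hR (by linarith) hT
    have e : (1 - h * (R - 1 / R)) / 2 = δ := by linarith
    rw [e] at h3
    exact h3

end Pool.Agent.Results.MP_553913_nt.BesselSeries
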