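import Pool.Agent.Results.MP_553913_nt.NewmanConductor
import Pool.Agent.Q9.RH.Ht

/-!
# The zeros of the heat flow of `Λ(E, s)` are on the line and simple, up to a small proportion

`E : y² = x³ + a x + b` is an elliptic curve over `ℚ` of conductor `N`, `Λ` its completed L-function and
`Λ_t = e^{t D²} Λ` (`D = d/ds`) the heat flow (definitions of the starting file
`Pool.Agent.Results.MP_553913_nt.NewmanConductor`).  The Riemann hypothesis for `E` holds if and only if for
all `t > 0` all zeros of `Λ_t` are on the line `Re s = 1`.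

We prove unconditionally, for every `E`: there are constants `c, C > 0` such that for `0 < t ≤ 1/8`, `T ≥ 2` at
most the proportion `C exp (-c t log² T)` of the zeros of `Λ_t` with imaginary part in `(T, 2T]` are off the
line `Re s = 1` or multiple, and their number is at most `C exp (-c t log² T) T log T`.  So almost all zeros
are on the line and simple as soon as `t` is large compared to `1 / log² T`, the square of the mean distance
of the zeros.

Proof: the theorem for newforms `Pool.Agent.Y771.NF.flow` of the starting modules (helper771, on top of project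
GD2 of helper671, modules `Pool.Agent.Y671`), which was applied there to the Ramanujan Xi function.
-/

set_option autoImplicit false

open Complex UpperHalfPlane MatrixGroups CongruenceSubgroup

namespace Pool.Agent.Results.MP_553913_nt.HeatFlowDensity

open Pool.Agent.Results.MP_553913_nt.NewmanConductor (coef IsFormOf IsCompleted heat)

/-- The zeros of `Λ_t` with imaginary part in `(T, 2T]`. -/
def Zer (Λ : ℂ → ℂ) (t T : ℝ) : Set ℂ := {s | heat t Λ s = 0 ∧ T < s.im ∧ s.im ≤ 2 * T}

/-- The exceptional ones: off the line `Re s = 1`, or multiple. -/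
def Exc (Λ : ℂ → ℂ) (t T : ℝ) : Set ℂ := {s | s ∈ Zer Λ t T ∧ (s.re ≠ 1 ∨ deriv (heat t Λ) s = 0)}

/-- The number of points of `A`, each counted with its multiplicity as a zero of `Λ_t`. -/
noncomputable def num (Λ : ℂ → ℂ) (t : ℝ) (A : Set ℂ) : ℕ := ∑ᶠ s ∈ A, analyticOrderNatAt (heat t Λ) s

/-- **Main theorem.** Let `E : y² = x³ + a x + b` be an elliptic curve over `ℚ`, and `Λ` its completed
L-function. There are `c, C > 0` such that for `0 < t ≤ 1/8` and `T ≥ 2` at most the proportion
`C exp (-c t log² T)` of the zeros of `Λ_t` with imaginary part in `(T, 2T]`, counted with multiplicity, are off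
the line `Re s = 1` or multiple; and the number of these exceptional zeros is at most
`C exp (-c t log² T) T log T`. -/
theorem result (a b : ℤ) (N : ℕ) [NeZero N] (f : CuspForm (Gamma0 N : Subgroup (GL (Fin 2) ℝ)) 2) (w : ℝ)
    (_ : 4 * a ^ 3 + 27 * b ^ 2 ≠ 0) (hf : IsFormOf a b N f w) :
    ∃ Λ : ℂ → ℂ, IsCompleted f Λ ∧ (∀ Λ', IsCompleted f Λ' → Λ' = Λ) ∧
      (∀ s : ℂ, Λ (2 - s) = (w : ℂ) * Λ s) ∧ heat 0 Λ = Λ ∧
      (∀ t T : ℝ, 0 ≤ t → (Zer Λ t T).Finite) ∧
      ∃ c C : ℝ, 0 < c ∧ 0 < C ∧ ∀ t T : ℝ, 0 < t → t ≤ 1 / 8 → 2 ≤ T →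
        (num Λ t (Exc Λ t T) : ℝ) ≤ C * Real.exp (-(c * t * Real.log T ^ 2)) * num Λ t (Zer Λ t T) ∧
        (num Λ t (Exc Λ t T) : ℝ) ≤ C * Real.exp (-(c * t * Real.log T ^ 2)) * T * Real.log T := by
  have hf' : Pool.Agent.W169.HF.IsForm N f w :=
    { one := hf.one
      real := hf.real
      mul := hf.mul
      pow := hf.pow
      sign := hf.sign
      fricke := hf.fricke
      good := hf.good
      bad := fun p hp hpN => by
        have h1 : (1 : ℝ) ≤ Real.sqrt p := by
          rw [Real.one_le_sqrt]
          exact_mod_cast hp.one_le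
        have h2 : ‖coef f p‖ ≤ 1 := by
          rcases hf.bad p hp hpN with h | h | h <;> simp [h]
        exact h2.trans h1 }
  obtain ⟨Λ, hΛ, hfe, -, -⟩ := Pool.Agent.W174.HF.nf1 N f w hf'
  obtain ⟨h0, h1, c, C, hc, hC, h2⟩ := Pool.Agent.Q9.RH.flow hf' hΛ
  exact ⟨Λ, hΛ, fun Λ' h' => Pool.Agent.W169.HF.completed_unique h' hΛ, hfe, h0, h1, c, C, hc, hC, h2⟩

end Pool.Agent.Results.MP_553913_nt.HeatFlowDensity
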