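import Mathlib
import Pool.Agent.Q12.EC.Cls

/-! One-sided bounds in windows for the traces of elliptic curves over `ℚ` in residue classes, and zeros. -/

set_option autoImplicit false

open Pool.Agent.Q12.EC (IsTwist lam sumUpTo cls BoundedBelow tw_comb classes single)

namespace Pool.Agent.Results.MP_553913_nt.OneSidedProgressions

open scoped Classical in
/-- Let `c ≥ 1/2` and `δ > 0`. All sums are over the primes `p ≤ x`, with `λ(p) = a_p / √p`, and a lower bound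
`-(A x^c + B)` is only assumed in the windows `[X^{1-δ}, X]` for arbitrarily large `X`.

(1) Integer combinations `∑_j m_j Re χ_j(p) λ_j(p)` for pairs (curve, character) closed under complex conjugation: if
the sum is bounded below, and the `L(E_j, χ_j, s)` with `m_j < 0` have no real zeros beyond `c + 1/2`, then
`∑_j m_j ord_ρ L(E_j, χ_j, s) = 0` for all `ρ` with `Re ρ > c + 1/2`.
(2) The same for combinations of curves over the primes `p` with `χ(p) = 1` for all `χ` in a group `X` of characters.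
(3) For one curve and the primes of (2) a lower bound, or, without real zeros beyond `c + 1/2`, an upper bound, gives
`L(E, χ, s) ≠ 0` for `Re s > c + 1/2` and all `χ` in `X`. -/
theorem result :
    (∀ (N : ℕ) [NeZero N] (ι : Type) [Fintype ι] (a b m : ι → ℤ) (χ : ι → DirichletCharacter ℂ N) (F : ι → ℂ → ℂ)
      (τ : Equiv.Perm ι), (∀ j, IsTwist (a j) (b j) (χ j) (F j)) →
      (∀ j, a (τ j) = a j ∧ b (τ j) = b j ∧ m (τ j) = m j ∧ χ (τ j) = (χ j)⁻¹) → ∀ c δ : ℝ, 1 / 2 ≤ c → 0 < δ →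
      (∀ j, m j < 0 → ∀ x : ℝ, c + 1 / 2 < x → F j (x : ℂ) ≠ 0) →
      BoundedBelow c δ (sumUpTo fun p => ∑ j, m j * ((χ j (p : ZMod N)).re * lam (a j) (b j) p)) →
      ∀ ρ : ℂ, c + 1 / 2 < ρ.re → ∑ j, m j * (analyticOrderNatAt (F j) ρ : ℤ) = 0) ∧
    (∀ (N : ℕ) [NeZero N] (X : Subgroup (DirichletCharacter ℂ N)) (κ : Type) [Fintype κ] (a b m : κ → ℤ)
      (F : κ → DirichletCharacter ℂ N → ℂ → ℂ), (∀ i, ∀ χ ∈ X, IsTwist (a i) (b i) χ (F i χ)) →
      ∀ c δ : ℝ, 1 / 2 ≤ c → 0 < δ → (∀ i, m i < 0 → ∀ χ ∈ X, ∀ x : ℝ, c + 1 / 2 < x → F i χ (x : ℂ) ≠ 0) →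
      BoundedBelow c δ (sumUpTo fun p => cls X p * ∑ i, m i * lam (a i) (b i) p) →
      ∀ ρ : ℂ, c + 1 / 2 < ρ.re →
        ∑ χ ∈ Finset.univ.filter (fun χ => χ ∈ X), ∑ i, m i * (analyticOrderNatAt (F i χ) ρ : ℤ) = 0) ∧
    (∀ (N : ℕ) [NeZero N] (X : Subgroup (DirichletCharacter ℂ N)) (a b : ℤ) (F : DirichletCharacter ℂ N → ℂ → ℂ),
      (∀ χ ∈ X, IsTwist a b χ (F χ)) → ∀ c δ : ℝ, 1 / 2 ≤ c → 0 < δ →
      (BoundedBelow c δ (sumUpTo fun p => cls X p * lam a b p) ∨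
        ((∀ χ ∈ X, ∀ x : ℝ, c + 1 / 2 < x → F χ (x : ℂ) ≠ 0) ∧
          BoundedBelow c δ fun x => -sumUpTo (fun p => cls X p * lam a b p) x)) →
      ∀ χ ∈ X, ∀ ρ : ℂ, c + 1 / 2 < ρ.re → F χ ρ ≠ 0) := by
  refine ⟨?_, ?_, ?_⟩
  · intro N _ ι _ a b m χ F τ hF hτ c δ hc hδ hr hw ρ hρ
    obtain ⟨A, B, hAB⟩ := hw
    exact tw_comb hF hτ hc hr hδ hAB hρ
  · intro N _ X κ _ a b m F hF c δ hc hδ hr hw ρ hρ
    exact classes X hF hc hr hδ hw hρ
  · intro N _ X a b F hF c δ hc hδ hw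
    exact single X hF hc hδ hw

end Pool.Agent.Results.MP_553913_nt.OneSidedProgressions
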