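import Pool.Agent.Results.MP_553913_nt.DerivativesDensity
import Pool.Agent.Q9.RH.Ec

/-!
# A log-free density theorem for the zeros of `L(E, s)` off the line `Re s = 1`, with every exponent `c < 1`

`E : y² = x³ + a x + b` is an elliptic curve over `ℚ` of conductor `N` and `Λ` its completed L-function
(definitions of the starting file `Pool.Agent.Results.MP_553913_nt.DerivativesDensity`).  The Riemann
hypothesis for `E` says that all zeros of `Λ` are on the line `Re s = 1`.

We prove unconditionally, for every `E` and for EVERY `c < 1`: the number of zeros of `Λ` with imaginary part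
in `(0, T]` and at distance at least `δ` from the line `Re s = 1`, counted with multiplicity, is at most
`C T ^ (1 - c δ) log T`, uniformly for `δ ≥ 0` and `T ≥ 2`.  So all but the proportion `C e^(-c h)` of the zeros
up to height `T` are within `h / log T` of the line.

Proof.  The density theorem of the starting modules `Pool.Agent.Y24.GL` (helper24; mollifiers of length
`T ^ κ`, every `κ < 1`, for L-functions given by axioms) on top of the mollified second moment of project GD2
(`Pool.Agent.Y671.GL`: shifted convolution sums by Jutila's circle method) and its form for newforms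
`Pool.Agent.Y771.NF.off` (helper771), which were applied there to the Ramanujan L-function.
-/

set_option autoImplicit false

open Complex UpperHalfPlane MatrixGroups CongruenceSubgroup

namespace Pool.Agent.Results.MP_553913_nt.ZeroDensity

open Pool.Agent.Results.MP_553913_nt.DerivativesDensity (coef IsFormOf IsCompleted)

/-- The zeros of `Λ` with imaginary part in `(0, T]` and distance at least `δ` from the line `Re s = 1`. -/
def Off (Λ : ℂ → ℂ) (δ T : ℝ) : Set ℂ := {s | Λ s = 0 ∧ δ ≤ |s.re - 1| ∧ 0 < s.im ∧ s.im ≤ T}

/-- The number of points of `A`, each counted with its multiplicity as a zero of `Λ`. -/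
noncomputable def num (Λ : ℂ → ℂ) (A : Set ℂ) : ℕ := ∑ᶠ s ∈ A, analyticOrderNatAt Λ s

/-- **Main theorem.** Let `E : y² = x³ + a x + b` be an elliptic curve over `ℚ`, and `Λ` its completed
L-function. For every `c < 1` there is `C > 0` such that for all `δ ≥ 0` and `T ≥ 2` at most
`C T ^ (1 - c δ) log T` zeros of `Λ` with imaginary part in `(0, T]`, counted with multiplicity, have a distance
of at least `δ` from the line `Re s = 1`. -/
theorem result (a b : ℤ) (N : ℕ) [NeZero N] (f : CuspForm (Gamma0 N : Subgroup (GL (Fin 2) ℝ)) 2) (w : ℝ)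
    (_ : 4 * a ^ 3 + 27 * b ^ 2 ≠ 0) (hf : IsFormOf a b N f w) :
    ∃ Λ : ℂ → ℂ, IsCompleted f Λ ∧ (∀ Λ', IsCompleted f Λ' → Λ' = Λ) ∧
      (∀ s : ℂ, Λ (2 - s) = (w : ℂ) * Λ s) ∧
      ∀ c : ℝ, c < 1 → ∃ C : ℝ, 0 < C ∧ ∀ δ T : ℝ, 0 ≤ δ → 2 ≤ T →
        (Off Λ δ T).Finite ∧ (num Λ (Off Λ δ T) : ℝ) ≤ C * T ^ (1 - c * δ) * Real.log T := by
  have hf' : Pool.Agent.W169.HF.IsForm N f w :=
    { one := hf.one
      real := hf.real
      mul := hf.mul
      pow := hf.pow
      sign := hf.sign
      fricke := hf.fricke
      good := hf.good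
      bad := fun p hp hpN => by
        have h1 : (1 : ℝ) ≤ Real.sqrt p := by
          rw [Real.one_le_sqrt]
          exact_mod_cast hp.one_le
        have h2 : ‖coef f p‖ ≤ 1 := by
          rcases hf.bad p hp hpN with h | h | h <;> simp [h]
        exact h2.trans h1 }
  obtain ⟨Λ, hΛ, hfe, -, -⟩ := Pool.Agent.W174.HF.nf1 N f w hf'
  exact ⟨Λ, hΛ, fun Λ' h' => Pool.Agent.W169.HF.completed_unique h' hΛ, hfe,
    fun c hc => Pool.Agent.Q9.RH.density hf' hΛ hc⟩

end Pool.Agent.Results.MP_553913_nt.ZeroDensity
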